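import Pool.Agent.Helper22.SOB.Near

/-!
# Second-order directional expansions of continuous convex functions on separable Hilbert spaces

Let `X` be a separable real Hilbert space and let `f : X → ℝ` be convex and continuous. The points `x` with the
following property are dense in `X`: there are a vector `y` and a symmetric continuous bilinear form `B ≥ 0` with
`f (x + t h) = f x + t (y, h) + t ^ 2 B (h, h) + o (t ^ 2)` as `t → 0` for each `h`, and moreover
`0 ≤ f (x + h) - f x - (y, h) ≤ C ‖h‖ ^ 2` for all small `h`.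
-/

set_option autoImplicit false

namespace Pool.Agent.Results.MP_41f01b_an.DenseSecondOrder

open scoped InnerProductSpace

theorem result {X : Type*} [NormedAddCommGroup X] [InnerProductSpace ℝ X] [CompleteSpace X]
    [TopologicalSpace.SeparableSpace X] (f : X → ℝ) (hcont : Continuous f)
    (hconv : ConvexOn ℝ Set.univ f) :
    Dense {x : X | ∃ (y : X) (B : X →ₗ[ℝ] X →ₗ[ℝ] ℝ) (C δ : ℝ), 0 < C ∧ 0 < δ ∧
      (∀ h k : X, B h k = B k h) ∧ (∀ h k : X, |B h k| ≤ C * ‖h‖ * ‖k‖) ∧ (∀ h : X, 0 ≤ B h h) ∧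
      (∀ h : X, ‖h‖ ≤ δ → 0 ≤ f (x + h) - (f x + ⟪y, h⟫_ℝ) ∧
        f (x + h) - (f x + ⟪y, h⟫_ℝ) ≤ C * ‖h‖ ^ 2) ∧
      ∀ h : X, ∀ ε > 0, ∃ η > 0, ∀ t : ℝ, |t| < η →
        |f (x + t • h) - (f x + t * ⟪y, h⟫_ℝ + t ^ 2 * B h h)| ≤ ε * t ^ 2} := by
  rw [Metric.dense_iff]
  intro x₀ r hr
  obtain ⟨x, y, B, hx, hs, hpos, ⟨C, δ, hC, hδ, hb⟩, hexp⟩ :=
    Pool.Agent.Helper22.SO.main_near f hcont hconv x₀ r hr
  refine ⟨x, by rwa [Metric.mem_ball, dist_eq_norm], y,
    LinearMap.mk₂ ℝ (fun h k => B h k) (fun a b c => by simp) (fun a b c => by simp)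
      (fun a b c => by simp) (fun a b c => by simp), max C ‖B‖, δ,
    lt_of_lt_of_le hC (le_max_left _ _), hδ, fun h k => hs h k, ?_, fun h => hpos h, ?_, ?_⟩
  · intro h k
    have h1 := B.le_opNorm₂ h k
    rw [Real.norm_eq_abs] at h1
    calc |B h k| ≤ ‖B‖ * ‖h‖ * ‖k‖ := h1
      _ ≤ max C ‖B‖ * ‖h‖ * ‖k‖ := by
        gcongr
        exact le_max_right _ _
  · intro h hh
    obtain ⟨h1, h2⟩ := hb h hh
    refine ⟨by linarith, ?_⟩
    have h3 : C * ‖h‖ ^ 2 ≤ max C ‖B‖ * ‖h‖ ^ 2 := by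
      gcongr
      exact le_max_left _ _
    linarith
  · intro h ε hε
    exact hexp h ε hε

end Pool.Agent.Results.MP_41f01b_an.DenseSecondOrder
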